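import Pool.Agent.H23.LB.Targets

/-!
# (LA) the analytic continuation
-/

set_option autoImplicit false

open NumberField NumberField.InfinitePlace NumberField.Units
  NumberField.Units.dirichletUnitTheorem MeasureTheory Set Filter Complex
open scoped nonZeroDivisors ENNReal

namespace Pool.Agent.H69.LB

open Pool.Agent.H25.HK Pool.Agent.H28.RC Pool.Agent.H23.LB

open scoped Classical in
/-- continuous functions are integrable on the fundamental domain -/
theorem intOn_Fd (K : Type) [Field K] [NumberField K] (F : logSpace K → ℂ) (hF : Continuous F) :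
    IntegrableOn F (Fd K) := by
  have hb : Bornology.IsBounded (Fd K) := ZSpan.fundamentalDomain_isBounded _
  exact (hF.continuousOn.integrableOn_compact hb.isCompact_closure).mono_set subset_closure

open scoped Classical in
theorem cont_ec (K : Type) [Field K] [NumberField K] (ν : InfinitePlace K → ℝ) :
    Continuous (ec K ν) := by
  unfold ec pr
  fun_prop

open scoped Classical in
/-- splitting off the polar terms -/
theorem split (hAZ : T_AZ) (K : Type) [Field K] [NumberField K] (f : Ideal (𝓞 K)) (hf : f ≠ ⊥)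
    (D : Sys K f) (χ : HC K f) (s : ℂ) :
    Lam D χ 0 s =
      (∑ c, ∑ r ∈ D.X c, cf χ (D.M c) r * ∫ z in Fd K, ec K χ.ν z * E0 K χ.S f (D.M c) r 0 z s) -
      (∑ c, ∑ r ∈ D.X c, cf χ (D.M c) r * ((∫ z in Fd K, ec K χ.ν z) *
        d0 K χ.S f (D.M c) r)) / s -
      rn K χ.S 0 * (∑ c, ∑ r ∈ D.X c, cf χ (D.M c) r * ((∫ z in Fd K, ec K χ.ν z) *
        d1 K χ.S)) / (1 - s) := by
  have key : ∀ c, ∀ r ∈ D.X c, cf χ (D.M c) r *
      (∫ z in Fd K, ec K χ.ν z * EZ K χ.S f (D.M c) r 0 z s) =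
      cf χ (D.M c) r * (∫ z in Fd K, ec K χ.ν z * E0 K χ.S f (D.M c) r 0 z s) -
      cf χ (D.M c) r * ((∫ z in Fd K, ec K χ.ν z) * d0 K χ.S f (D.M c) r) / s -
      rn K χ.S 0 * (cf χ (D.M c) r * ((∫ z in Fd K, ec K χ.ν z) * d1 K χ.S)) / (1 - s) := by
    intro c r hr
    have hM : D.M c ≠ 0 := D.reps.1 c
    have hrM : r ∈ D.M c := (D.rep c).1 r hr
    have h0 : |(0 : ℝ)| < Real.pi / 2 := by
      rw [abs_zero]
      exact Real.pi_div_two_pos
    obtain ⟨-, hc, -, -⟩ := hAZ K χ.S f (D.M c) r 0 hf hM hrM h0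
    have e1 : ∀ z, ec K χ.ν z * EZ K χ.S f (D.M c) r 0 z s =
        ec K χ.ν z * E0 K χ.S f (D.M c) r 0 z s -
        ec K χ.ν z * (d0 K χ.S f (D.M c) r / s) -
        ec K χ.ν z * (rn K χ.S 0 * d1 K χ.S / (1 - s)) := by
      intro z
      unfold EZ
      ring
    have i1 : IntegrableOn (fun z => ec K χ.ν z * E0 K χ.S f (D.M c) r 0 z s) (Fd K) :=
      intOn_Fd K _ ((cont_ec K χ.ν).mul (hc s))
    have i2 : IntegrableOn (fun z => ec K χ.ν z * (d0 K χ.S f (D.M c) r / s)) (Fd K) :=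
      intOn_Fd K _ ((cont_ec K χ.ν).mul continuous_const)
    have i3 : IntegrableOn (fun z => ec K χ.ν z * (rn K χ.S 0 * d1 K χ.S / (1 - s))) (Fd K) :=
      intOn_Fd K _ ((cont_ec K χ.ν).mul continuous_const)
    have e2 : (∫ z in Fd K, ec K χ.ν z * EZ K χ.S f (D.M c) r 0 z s) =
        (∫ z in Fd K, ec K χ.ν z * E0 K χ.S f (D.M c) r 0 z s) -
        (∫ z in Fd K, ec K χ.ν z) * (d0 K χ.S f (D.M c) r / s) -
        (∫ z in Fd K, ec K χ.ν z) * (rn K χ.S 0 * d1 K χ.S / (1 - s)) := by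
      have a1 : (∫ z in Fd K, (ec K χ.ν z * E0 K χ.S f (D.M c) r 0 z s -
          ec K χ.ν z * (d0 K χ.S f (D.M c) r / s) -
          ec K χ.ν z * (rn K χ.S 0 * d1 K χ.S / (1 - s)))) =
          (∫ z in Fd K, (ec K χ.ν z * E0 K χ.S f (D.M c) r 0 z s -
            ec K χ.ν z * (d0 K χ.S f (D.M c) r / s))) -
          ∫ z in Fd K, ec K χ.ν z * (rn K χ.S 0 * d1 K χ.S / (1 - s)) :=
        integral_sub (i1.sub i2) i3
      have a2 : (∫ z in Fd K, (ec K χ.ν z * E0 K χ.S f (D.M c) r 0 z s -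
            ec K χ.ν z * (d0 K χ.S f (D.M c) r / s))) =
          (∫ z in Fd K, ec K χ.ν z * E0 K χ.S f (D.M c) r 0 z s) -
          ∫ z in Fd K, ec K χ.ν z * (d0 K χ.S f (D.M c) r / s) := integral_sub i1 i2
      rw [integral_congr_ae (Filter.Eventually.of_forall e1), a1, a2, integral_mul_const,
        integral_mul_const]
    rw [e2]
    ring
  unfold Lam
  rw [Finset.mul_sum, Finset.sum_div, Finset.sum_div, ← Finset.sum_sub_distrib,
    ← Finset.sum_sub_distrib]
  refine Finset.sum_congr rfl fun c _ => ?_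
  rw [Finset.mul_sum, Finset.sum_div, Finset.sum_div, ← Finset.sum_sub_distrib,
    ← Finset.sum_sub_distrib]
  exact Finset.sum_congr rfl fun r hr => key c r hr

open scoped Classical in
theorem pf_LA (hAZ : T_AZ) (hPO : T_PO') : T_LA := by
  intro K _ _ f hf D χ
  have hE : Differentiable ℂ (fun s => ∑ c, ∑ r ∈ D.X c, cf χ (D.M c) r *
      ∫ z in Fd K, ec K χ.ν z * E0 K χ.S f (D.M c) r 0 z s) := by
    refine Differentiable.fun_sum fun c _ => Differentiable.fun_sum fun r hr => ?_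
    have h0 : |(0 : ℝ)| < Real.pi / 2 := by
      rw [abs_zero]
      exact Real.pi_div_two_pos
    obtain ⟨-, -, hd, -⟩ := hAZ K χ.S f (D.M c) r 0 hf (D.reps.1 c) ((D.rep c).1 r hr) h0
    exact (hd χ.ν).const_mul _
  refine ⟨fun s h0 h1 => ?_, fun hχ => ⟨_, hE, fun s h0 h1 => ?_⟩⟩
  · rw [show Lam D χ 0 = _ from funext fun s => split hAZ K f hf D χ s]
    refine (((hE s)).sub ((differentiableAt_const _).div differentiableAt_id h0)).sub
      ((differentiableAt_const _).div ((differentiableAt_const _).sub differentiableAt_id) ?_)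
    exact sub_ne_zero.mpr (Ne.symm h1)
  · obtain ⟨p0, p1⟩ := hPO K f hf D χ hχ
    rw [split hAZ K f hf D χ s, p0, p1]
    simp

end Pool.Agent.H69.LB
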