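import Pool.Agent.H23.LB.Targets
import Pool.Agent.H48.RC.RX
import Pool.Agent.H86.RC.CS
import Pool.Agent.H63.HK.DU

/-!
# (SY) systems of representatives exist
-/

set_option autoImplicit false

open NumberField NumberField.InfinitePlace NumberField.Units
  NumberField.Units.dirichletUnitTheorem MeasureTheory Set Filter Complex
open scoped nonZeroDivisors ENNReal

namespace Pool.Agent.H69.LB

open Pool.Agent.H25.HK Pool.Agent.H28.RC Pool.Agent.H23.LB

theorem pf_SY : T_SY := by
  intro K _ _ f hf
  obtain ⟨ι, hι, M, h0, h1, -⟩ := Pool.Agent.H86.RC.pf_CS Pool.Agent.H63.HK.du K f hf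
  choose X hX _ using fun c => Pool.Agent.H48.RC.pf_RX K f (M c) hf (h0 c)
  exact ⟨{ ι := ι, fin := hι, M := M, X := X, reps := ⟨h0, h1⟩, rep := hX }⟩

end Pool.Agent.H69.LB
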